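import Pool.Agent.Q186.DT.Main

/-!
MP_a38b17_an, Q1 for the Katz-Pavlovic dyadic model of the Navier-Stokes equations on the tree of
dyadic cubes, with data and forces of any sign: every Leray-Hopf solution satisfies the energy
equality and is regular for positive times.

The model. The nodes of the `K`-ary tree are the words over `Fin K`; the root is the empty word, the
children of `w` are the words `i :: w`, the generation of `w` is its length `|w|`. For `K = 8` this is
the tree of the dyadic subcubes of a cube in space, for `K = 1` it is the shell model. With shell ratio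
`λ` (`λ = 2` for dyadic cubes), viscosity `ν > 0` and forces `f_w(t)`,

`X_w' = - ν λ^(2|w|) X_w + λ^(β(|w|-1)) X_parent(w)^2 - λ^(β|w|) X_w ∑_{i} X_(i w) + f_w`.

The nonlinear terms cancel in the formal energy balance. `K = 8`, `λ = 2`, `β = 5/2` are the values
for the Navier-Stokes equations in space (`λ^(3/2)` is the ratio of the maximum of a wavelet to its
norm).

Theorem. Let `β ≤ 3`, `λ > 1`, and `K ≥ 2`, `K λ^(8-2β) ≥ 12`, or `K = 1`, `λ ≥ 2`. Let `ν, T > 0`, `f`
continuous in time with `|f_w(t)| ≤ φ_w`, `∑ φ_w^2 < ∞`. Data, solutions and forces may have any sign.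

* For all data of finite energy there is a Leray-Hopf solution on `[0,T]`.
* Every Leray-Hopf solution satisfies the energy equality from `s` to `t` for all `0 ≤ s ≤ t ≤ T`.
* It is regular for positive times: `λ^((β-2)|w|) X_w(t)` tends to zero as `|w| → ∞`, uniformly for `t` in
  `[t₀,T]`, for every `t₀ > 0` (this quantity is invariant under the scaling of the model); if the
  force is smooth (`λ^(σ|w|) f_w(t)` bounded for every `σ`) then `X` is smooth on `[t₀,T]`.
* If force and data are smooth then `X` is smooth on `[0,T]` (global regularity).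
* If `λ^((β-2)|w|) a_w` tends to zero, in particular if the data have finite enstrophy, then the
  solution is unique, also among the weak solutions which satisfy the energy inequality only from
  time zero (so these satisfy the energy equality).
* For nonnegative data and forces, every solution of the equations of the nodes, without any
  energy inequality, is a nonnegative Leray-Hopf solution, and it is unique.
-/

set_option autoImplicit false

namespace Pool.Agent.Results.MP_a38b17_an.DyadicTree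

open MeasureTheory Set

/-- The nodes of the `K`-ary tree: words over `Fin K`. The root is `[]`, the children of `w` are the
words `i :: w`. -/
abbrev Node (K : ℕ) : Type := List (Fin K)

/-- The value of `X` at the parent of a node, `0` at the root. -/
def atParent {K : ℕ} (X : Node K → ℝ → ℝ) : Node K → ℝ → ℝ
  | [] => fun _ => 0
  | _ :: u => X u

/-- The right hand side of the model,
`- ν λ^(2n) X_w + λ^(β(n-1)) X_parent(w)^2 - λ^(β n) X_w ∑_i X_(i w) + f_w`, `n = |w|` (the second term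
is absent for the root). -/
noncomputable def rhs {K : ℕ} (lam β ν : ℝ) (f X : Node K → ℝ → ℝ) (w : Node K) (t : ℝ) : ℝ :=
  -(ν * lam ^ (2 * w.length) * X w t)
    + lam ^ (β * ((w.length : ℝ) - 1)) * atParent X w t ^ 2
    - lam ^ (β * (w.length : ℝ)) * X w t * (∑ i : Fin K, X (i :: w) t) + f w t

/-- `X` is a solution on `[0,T]` with force `f` and data `a`: every component is differentiable on
`[0,T]` (one-sided at the end points) and satisfies its equation. -/
structure IsSol {K : ℕ} (lam β ν T : ℝ) (f : Node K → ℝ → ℝ) (a : Node K → ℝ)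
    (X : Node K → ℝ → ℝ) : Prop where
  init : ∀ w, X w 0 = a w
  ode : ∀ w, ∀ t ∈ Icc 0 T, HasDerivWithinAt (X w) (rhs lam β ν f X w t) (Icc 0 T) t

/-- The energy `∑ X_w(t)^2`. -/
noncomputable def energy {K : ℕ} (X : Node K → ℝ → ℝ) (t : ℝ) : ℝ := ∑' w, X w t ^ 2

/-- The dissipation `∑ λ^(2|w|) X_w(t)^2` (without the factor `2 ν`). -/
noncomputable def dissipation {K : ℕ} (lam : ℝ) (X : Node K → ℝ → ℝ) (t : ℝ) : ℝ :=
  ∑' w : Node K, lam ^ (2 * w.length) * X w t ^ 2

/-- The power of the force `∑ f_w(t) X_w(t)`. -/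
noncomputable def power {K : ℕ} (f X : Node K → ℝ → ℝ) (t : ℝ) : ℝ := ∑' w, f w t * X w t

/-- Admissible forces: continuous in time and `|f_w(t)| ≤ φ_w` with `∑ φ_w^2 < ∞`. -/
structure Force {K : ℕ} (T : ℝ) (f : Node K → ℝ → ℝ) : Prop where
  cont : ∀ w, ContinuousOn (f w) (Icc 0 T)
  bound : ∃ φ : Node K → ℝ, Summable (fun w => φ w ^ 2) ∧ ∀ w, ∀ t ∈ Icc 0 T, |f w t| ≤ φ w

/-- The energy inequality from `s` to `t`. -/
def EnergyInequality {K : ℕ} (lam ν : ℝ) (f X : Node K → ℝ → ℝ) (s t : ℝ) : Prop :=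
  energy X t + 2 * ν * (∫ r in s..t, dissipation lam X r)
    ≤ energy X s + 2 * (∫ r in s..t, power f X r)

/-- The energy equality from `s` to `t`. -/
def EnergyEquality {K : ℕ} (lam ν : ℝ) (f X : Node K → ℝ → ℝ) (s t : ℝ) : Prop :=
  energy X t + 2 * ν * (∫ r in s..t, dissipation lam X r)
    = energy X s + 2 * (∫ r in s..t, power f X r)

/-- Weak solutions with energy inequality from time `0`: the energy is bounded on `[0,T]`, the
dissipation is finite at almost every time and integrable, and the energy inequality holds from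
time `0` to every time `t`. -/
structure WeakSol {K : ℕ} (lam β ν T : ℝ) (f : Node K → ℝ → ℝ) (a : Node K → ℝ)
    (X : Node K → ℝ → ℝ) : Prop where
  sol : IsSol lam β ν T f a X
  energy_le : ∃ E : ℝ, ∀ t ∈ Icc 0 T, Summable (fun w => X w t ^ 2) ∧ energy X t ≤ E
  summable : ∀ᵐ t : ℝ, t ∈ Icc 0 T → Summable fun w : Node K => lam ^ (2 * w.length) * X w t ^ 2
  integrable : IntervalIntegrable (dissipation lam X) volume 0 T
  zero : ∀ t ∈ Icc 0 T, EnergyInequality lam ν f X 0 t

/-- Leray-Hopf solutions: weak solutions with the energy inequality from almost every time `s` to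
every later time `t`, and from time `0` (strong energy inequality). -/
structure LerayHopf {K : ℕ} (lam β ν T : ℝ) (f : Node K → ℝ → ℝ) (a : Node K → ℝ)
    (X : Node K → ℝ → ℝ) : Prop extends WeakSol lam β ν T f a X where
  strong : ∀ᵐ s : ℝ, s ∈ Icc 0 T → ∀ t ∈ Icc s T, EnergyInequality lam ν f X s t

/-- `λ^((β-2)|w|) X_w(t)` tends to zero as `|w| → ∞`, uniformly for `t` in `[s,T]`. -/
def Regular {K : ℕ} (lam β s T : ℝ) (X : Node K → ℝ → ℝ) : Prop :=
  ∀ ε : ℝ, 0 < ε → ∃ m : ℕ, ∀ w : Node K, m ≤ w.length → ∀ t ∈ Icc s T,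
    lam ^ ((β - 2) * (w.length : ℝ)) * |X w t| ≤ ε

/-- `λ^(σ|w|) X_w(t)` is bounded, uniformly for `t` in `[s,T]`, for every `σ`. -/
def Smooth {K : ℕ} (lam s T : ℝ) (X : Node K → ℝ → ℝ) : Prop :=
  ∀ σ : ℝ, ∃ C : ℝ, ∀ w : Node K, ∀ t ∈ Icc s T, lam ^ (σ * (w.length : ℝ)) * |X w t| ≤ C

/-- Data for which `λ^((β-2)|w|) a_w` tends to zero as `|w| → ∞`. -/
def RegularData {K : ℕ} (lam β : ℝ) (a : Node K → ℝ) : Prop :=
  ∀ ε : ℝ, 0 < ε → ∃ m : ℕ, ∀ w : Node K, m ≤ w.length →
    lam ^ ((β - 2) * (w.length : ℝ)) * |a w| ≤ ε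

/-- Data for which `λ^(σ|w|) a_w` is bounded for every `σ`. -/
def SmoothData {K : ℕ} (lam : ℝ) (a : Node K → ℝ) : Prop :=
  ∀ σ : ℝ, ∃ C : ℝ, ∀ w : Node K, lam ^ (σ * (w.length : ℝ)) * |a w| ≤ C

/-- The solutions `X` and `Y` are equal on `[0,T]`. -/
def EqOnT {K : ℕ} (T : ℝ) (X Y : Node K → ℝ → ℝ) : Prop := ∀ w, ∀ t ∈ Icc 0 T, X w t = Y w t

section transfer

open Pool.Agent.Q186.DT

variable {K : ℕ} {lam β ν T : ℝ} {f X : Node K → ℝ → ℝ} {a : Node K → ℝ}

theorem rhs_eq (w : Node K) (t : ℝ) : rhs lam β ν f X w t = rhsX lam β ν f X w t := by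
  cases w <;> rfl

theorem sol_iff : IsSol lam β ν T f a X ↔ SolX lam β ν T f a X := by
  constructor
  · intro h
    exact ⟨h.init, fun w t ht => by rw [← rhs_eq]; exact h.ode w t ht⟩
  · intro h
    exact ⟨h.1, fun w t ht => by rw [rhs_eq]; exact h.2 w t ht⟩

theorem weak_to (h : WeakSol lam β ν T f a X) : WX lam β ν T f a X :=
  ⟨sol_iff.1 h.sol, h.energy_le, h.summable, h.integrable, h.zero⟩

theorem lh_to (h : LerayHopf lam β ν T f a X) : LHX lam β ν T f a X :=
  ⟨sol_iff.1 h.sol, h.energy_le, h.summable, h.integrable, h.zero, h.strong⟩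

theorem lh_of (h : LHX lam β ν T f a X) : LerayHopf lam β ν T f a X :=
  ⟨⟨sol_iff.2 h.sol, h.en, h.fin, h.dis, h.zero⟩, h.ae⟩

end transfer

theorem result (K : ℕ) (lam β ν T : ℝ) (hlam : 1 < lam) (hβ : β ≤ 3)
    (hK : (2 ≤ K ∧ 12 ≤ K * lam ^ (8 - 2 * β)) ∨ (K = 1 ∧ 2 ≤ lam))
    (hν : 0 < ν) (hT : 0 < T) (f : Node K → ℝ → ℝ) (hf : Force T f) :
    -- existence of Leray-Hopf solutions
    (∀ a : Node K → ℝ, Summable (fun w => a w ^ 2) → ∃ X, LerayHopf lam β ν T f a X) ∧
    -- properties of every Leray-Hopf solution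
    (∀ (a : Node K → ℝ) (X : Node K → ℝ → ℝ), LerayHopf lam β ν T f a X →
      -- energy equality
      (∀ s t : ℝ, 0 ≤ s → s ≤ t → t ≤ T → EnergyEquality lam ν f X s t) ∧
      -- regularity for positive times
      (∀ t₀ : ℝ, 0 < t₀ → t₀ ≤ T → Regular lam β t₀ T X) ∧
      (Smooth lam 0 T f → ∀ t₀ : ℝ, 0 < t₀ → t₀ ≤ T → Smooth lam t₀ T X) ∧
      -- global regularity for smooth data
      (Smooth lam 0 T f → SmoothData lam a → Smooth lam 0 T X) ∧
      -- regularity up to time zero, and uniqueness among all weak solutions, for regular data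
      (RegularData lam β a → Regular lam β 0 T X ∧
        ∀ Y, WeakSol lam β ν T f a Y → EqOnT T Y X)) ∧
    -- data of finite enstrophy are regular
    (∀ a : Node K → ℝ, (Summable fun w : Node K => lam ^ (2 * w.length) * a w ^ 2) →
      RegularData lam β a) ∧
    -- nonnegative data and forces: all solutions are Leray-Hopf solutions, uniqueness
    ((∀ w, ∀ t ∈ Icc 0 T, 0 ≤ f w t) → ∀ a : Node K → ℝ, (∀ w, 0 ≤ a w) →
      Summable (fun w => a w ^ 2) → ∀ X, IsSol lam β ν T f a X →
        LerayHopf lam β ν T f a X ∧ (∀ w, ∀ t ∈ Icc 0 T, 0 ≤ X w t) ∧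
        ∀ Y, IsSol lam β ν T f a Y → EqOnT T Y X) := by
  obtain ⟨h1, h2, h3, h4⟩ := Pool.Agent.Q186.DT.main (K := K) (lam := lam) (β := β) (ν := ν)
    (T := T) (f := f) ⟨hlam, hβ, hK⟩ hν hT ⟨hf.cont, hf.bound⟩
  refine ⟨fun a ha => ?_, fun a X hX => ?_, h3, fun hfn a ha hsa X hX => ?_⟩
  · obtain ⟨X, hX⟩ := h1 a ha
    exact ⟨X, lh_of hX⟩
  · obtain ⟨g1, g2, g3, g4, g5⟩ := h2 a X (lh_to hX)
    exact ⟨g1, g2, g3, g4, fun hC => ⟨(g5 hC).1, fun Y hY => (g5 hC).2 Y (weak_to hY)⟩⟩
  · obtain ⟨g1, g2, g3⟩ := h4 hfn a ha hsa X (sol_iff.1 hX)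
    exact ⟨lh_of g1, g2, fun Y hY => g3 Y (sol_iff.1 hY)⟩

end Pool.Agent.Results.MP_a38b17_an.DyadicTree
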