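import Pool.Agent.Q62.JC.Slice

/-!
Jumps in time of the energy of a suitable weak solution of the Navier-Stokes equations: they are
carried by the points where the local energy density concentrates.

`Turb 1 T E D G u p`: `(u, p)` is a suitable weak solution on `(0, T)`, periodic of period one in
space, viscosity one, smooth at the times of the open set `G` of full measure in `(0, T)`.
`la G u t₀ x r = r⁻¹ sup { ∫_{B(x, r)} |u(t)|² : t ∈ G, t₀ - r² < t < t₀ }`. `Conc G u t₀` is the
set of the points of concentration: the points `x` with `(t₀, x)` singular, `la G u t₀ x r → ∞` as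
`r → 0` (the limit, along all scales) and, for all `s < 1`,
`limsup la G u t₀ x r / (log 1/r)^s = ∞`.
-/

set_option autoImplicit false

open MeasureTheory Set Metric Filter Topology
open scoped ContDiff ENNReal

namespace Pool.Agent.Results.MP_a38b17_an.JumpConcentration

open H459R3.NS W221.NS Pool.Agent.Y8 Pool.Agent.Q62.SD Pool.Agent.Q62.JC

/-- Let `t₀ ∈ (0, T)`. (1) The loss of local energy at the time `t₀` is carried by the points of
concentration: for every `ε > 0` their complement lies in an open set `O` such that, for every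
cut-off function `w` supported in `O`, the local energy tested with `w` loses at most `ε` from the
regular times shortly before `t₀` to the regular times shortly after `t₀`. (2) If there are no
points of concentration at the time `t₀` then the energy does not jump at `t₀`: it has a limit as
the regular times tend to `t₀` from both sides. -/
theorem result : ∀ (T E D : ℝ) (G : Set ℝ) (u : ℝ → V → V) (p : ℝ → V → ℝ),
    Turb 1 T E D G u p → ∀ t₀ ∈ Ioo 0 T,
      (∀ ε : ℝ, 0 < ε → ∃ O : Set V, IsOpen O ∧ (Conc G u t₀)ᶜ ⊆ O ∧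
        ∀ w : V → ℝ, ContDiff ℝ ∞ w → HasCompactSupport w → (∀ x, 0 ≤ w x ∧ w x ≤ 1) →
          tsupport w ⊆ O → ∃ δ : ℝ, 0 < δ ∧
            ∀ s ∈ G, s ∈ Ioo (t₀ - δ) t₀ → ∀ t ∈ G, t ∈ Ioo t₀ (t₀ + δ) →
              (∫ x, nsq (u s) x * w x) - (∫ x, nsq (u t) x * w x) ≤ ε) ∧
      (Conc G u t₀ = ∅ → ∃ e : ℝ, Tendsto (fun t => energy (u t)) (𝓝[G] t₀) (𝓝 e)) := by
  intro T E D G u p h t₀ ht₀
  refine ⟨fun ε hε => slice_loss h ht₀ ((slice_good h ht₀).mono fun z hz => hz) hε, fun hC => ?_⟩
  -- the limit
  have hne : (𝓝[G] t₀).NeBot := by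
    rw [← mem_closure_iff_nhdsWithin_neBot]
    rw [Metric.mem_closure_iff]
    intro ε hε
    obtain ⟨b, hb, hbI⟩ := denG h (show max (t₀ - ε) 0 < t₀ by
      rw [max_lt_iff]; exact ⟨by linarith, ht₀.1⟩) (le_max_right _ _) ht₀.2.le
    refine ⟨b, hb, ?_⟩
    have h1 : t₀ - ε < b := (le_max_left _ _).trans_lt hbI.1
    rw [Real.dist_eq, abs_lt]
    constructor <;> linarith [hbI.2]
  have hcau : Cauchy (Filter.map (fun t => energy (u t)) (𝓝[G] t₀)) := by
    rw [Metric.cauchy_iff]
    refine ⟨hne.map _, fun ε hε => ?_⟩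
    obtain ⟨δ, hδ, hj⟩ := no_jump h ht₀ hC (show 0 < ε / 2 by positivity)
    refine ⟨(fun t => energy (u t)) '' (G ∩ Ioo (t₀ - δ) (t₀ + δ)), ?_, ?_⟩
    · refine image_mem_map ?_
      exact inter_mem self_mem_nhdsWithin (mem_nhdsWithin_of_mem_nhds
        (Ioo_mem_nhds (by linarith) (by linarith)))
    · rintro _ ⟨s, hs, rfl⟩ _ ⟨t, ht, rfl⟩
      beta_reduce
      rw [dist_comm, Real.dist_eq]
      exact (hj s hs.1 hs.2 t ht.1 ht.2).trans_lt (by linarith)
  exact CompleteSpace.complete hcau

end Pool.Agent.Results.MP_a38b17_an.JumpConcentration
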