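import Pool.Agent.Q62.SD.Bal
import Pool.Agent.Q62.SD.Logc

/-!
The energy defect of a suitable weak solution of the Navier-Stokes equations lives on supercritical
singular points.

`Turb 1 T E D G u p`: `(u, p)` is a suitable weak solution on `(0, T)`, periodic of period one in
space, viscosity one, smooth at the times of the open set `G` of full measure in `(0, T)`.
`Df G u p φ` is the energy defect tested with `φ`. `Bad T G u p` is the set of the supercritical
singular points: the singular points `z` with `qq z r → ∞` as `r → 0` (the limit, along all scales)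
and, for all `s < 1`, `limsup qq z r / (log 1/r)^s = ∞`, where
`qq z r = r⁻² ∫∫ |u|³ + |p - [p]|^(3/2)` over the parabolic cylinder of radius `r` around `z`.
-/

set_option autoImplicit false

open MeasureTheory Set Metric Filter Topology
open scoped ContDiff ENNReal

namespace Pool.Agent.Results.MP_a38b17_an.SupercriticalDefect

open H459R3.NS W221.NS Pool.Agent.Y8 Pool.Agent.Q62.SD

/-- (1) No energy is lost outside the set of the supercritical singular points: the defect measure
of the complement is zero. (2) The local energy equality holds for test functions whose support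
contains no supercritical singular point. (3) The energy equality holds between two regular times
without supercritical singular points in between. -/
theorem result : ∀ (T E D : ℝ) (G : Set ℝ) (u : ℝ → V → V) (p : ℝ → V → ℝ),
    Turb 1 T E D G u p →
      NoLoss T G u p {z | z.1 ∈ Ioo 0 T ∧ z ∉ Bad T G u p} ∧
      (∀ φ : ℝ → V → ℝ, Test T φ → (∀ t x, 0 ≤ φ t x) → Disjoint (Sp φ) (Bad T G u p) →
        Df G u p φ = 0) ∧
      ∀ s ∈ G, ∀ t ∈ G, s ≤ t → (∀ z ∈ Bad T G u p, z.1 ∉ Ioo s t) →
        energy (u t) + 2 * ∫ τ in Ioo s t, enstrophy (u τ) = energy (u s) := by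
  intro T E D G u p h
  have hgood := nul_good h
  have h2 : ∀ φ : ℝ → V → ℝ, Test T φ → (∀ t x, 0 ≤ φ t x) →
      Disjoint (Sp φ) (Bad T G u p) → Df G u p φ = 0 := by
    intro φ hφ h0 hd
    refine Nul.df_zero h hφ h0 (hgood.mono fun z hz => ⟨(hφ.supp hz).1, fun hc => ?_⟩)
    exact (Set.disjoint_left.1 hd) hz hc
  refine ⟨hgood.noLoss h, h2, fun s hs t ht hst hb => bal h hs ht hst fun φ hφ h0 hsp => ?_⟩
  refine h2 φ hφ h0 (Set.disjoint_left.2 fun z hz hc => hb z hc ?_)
  exact (hsp hz).1

end Pool.Agent.Results.MP_a38b17_an.SupercriticalDefect
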