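import Pool.Agent.Q67.HV.FinT
import Pool.Agent.H772R2.NS.PubBridge

/-!
Energy equality for weak solutions of the Navier-Stokes equations in open sets `Ω ⊆ ℝ³` (no energy
inequality is assumed) in which the large vorticities in each ball of radius `R(t)` are in a cone
`κ |ω| ≤ e · ω` contained in a half space; the unit vector `e` depends on the ball and on the time
in an arbitrary way.

Definitions used (file `Pool/Agent/H772R2/NS/Pub.lean`): `R3`, `Mat`, `L2 Ω E`, `L2.fn`,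
`IsWeakSolution`, `energyDefect`, `norm4`.
-/

set_option autoImplicit false

open MeasureTheory Set Metric
open scoped InnerProductSpace ENNReal
open H772R2.NS.Pub

namespace Pool.Agent.Results.MP_a38b17_an.VorticityHalfSpaces

/-- The entry `(i, j)` of a matrix; for the gradient of a field `u` it is `∂_j u_i`. -/
def entry (z : Mat) (i j : Fin 3) : ℝ := (show EuclideanSpace ℝ (Fin 3 × Fin 3) from z) (i, j)

/-- The curl of a field from its gradient: `(∂_1 u_2 - ∂_2 u_1, ∂_2 u_0 - ∂_0 u_2,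
∂_0 u_1 - ∂_1 u_0)`. -/
noncomputable def curl (z : Mat) : R3 :=
  (WithLp.toLp 2 ![entry z 2 1 - entry z 1 2, entry z 0 2 - entry z 2 0,
    entry z 1 0 - entry z 0 1] : EuclideanSpace ℝ (Fin 3))

/-- For each ball of radius `R` there is a unit vector `e` such that the values of `w` in the ball
(intersected with `Ω`) which are larger than `M` are in the cone `κ |w| ≤ e · w`. -/
def HalfSpaceCones (Ω : Set R3) (κ R M : ℝ) (w : R3 → R3) : Prop :=
  ∀ x : R3, ∃ e : R3, ‖e‖ = 1 ∧ ∀ᵐ y ∂(volume.restrict Ω), y ∈ ball x R → M < ‖w y‖ →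
    κ * ‖w y‖ ≤ ⟪e, w y⟫_ℝ

theorem curl_eq (z : H772R2.NS.M3) : curl z = Pool.Agent.Q67.HV.vor z := by
  unfold curl Pool.Agent.Q67.HV.vor
  congr 1
  funext i
  fin_cases i <;> simp [entry, Pool.Agent.Q67.HV.eps, Fin.sum_univ_three] <;> ring

/-- Weak solutions whose large vorticities in the balls of radius `R(t)` are in half space cones
are in `L⁴(0,T; L⁴(Ω))` and satisfy the energy equality. -/
theorem result {Ω : Set R3} (hΩ : IsOpen Ω) {ν T κ : ℝ} (hν : 0 < ν) (hT : 0 < T) (hκ : 0 < κ)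
    {u : ℝ → L2 Ω R3} {G : ℝ → L2 Ω Mat} {f : ℝ → L2 Ω R3} (hu : IsWeakSolution Ω ν T u G f)
    {R M : ℝ → ℝ} (hR : ∀ t, 0 < R t) (hM : ∀ t, 0 ≤ M t)
    (h1 : IntegrableOn (fun t => (1 / R t + M t ^ 2 * R t ^ 4) * ‖G t‖ ^ 2) (Ioo 0 T))
    (h2 : IntegrableOn (fun t => 1 / R t ^ 3 + M t ^ 2 * R t ^ 2) (Ioo 0 T))
    (hc : ∀ᵐ t ∂(volume.restrict (Ioo 0 T)),
      HalfSpaceCones Ω κ (R t) (M t) (fun y => curl ((G t).fn y))) :
    (∫⁻ t in Ioo 0 T, norm4 (u t) ^ 4 < ⊤) ∧ ∀ t ∈ Icc 0 T, energyDefect ν u G f t = 0 := by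
  have hκ' : 0 < min κ 1 := lt_min hκ one_pos
  have h4 : ∫⁻ t in Ioo 0 T, norm4 (u t) ^ 4 ≠ ⊤ := by
    refine Pool.Agent.Q67.HV.l4_time (Ω := (Ω : Set H772R2.NS.E3)) Pool.Agent.Q67.HV.a_F2
      Pool.Agent.Q67.HV.a_Q hΩ hκ' (min_le_right _ _) (toNS hu) hR hM h1 h2 ?_
    filter_upwards [hc] with t ht
    intro x
    obtain ⟨e, he, hce⟩ := ht x
    refine ⟨e, he, ?_⟩
    have e0 : (fun y => curl ((G t).fn y)) = fun y =>
        Pool.Agent.Q67.HV.vor ((show H772R2.NS.L2M (Ω : Set H772R2.NS.E3) from G t) y) :=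
      funext fun y => curl_eq _
    rw [e0] at hce
    filter_upwards [hce] with y hy hyB hlt
    refine le_trans ?_ (hy hyB hlt)
    exact mul_le_mul_of_nonneg_right (min_le_left _ _) (norm_nonneg _)
  exact ⟨lt_top_iff_ne_top.mpr h4, Pool.Agent.Q67.HV.energy_of_l4 hΩ hν.le hT hu h4⟩

end Pool.Agent.Results.MP_a38b17_an.VorticityHalfSpaces
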